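import Pool.Agent.LibSC37.Main

/-!
# MP_713d40_gt: a sigma-space of countable i-weight outside the class SC_p(M_0^{<omega})

There is, in ZFC, a zero-dimensional Tychonoff sigma-space `X` with a base of at most continuum
many clopen sets and with a continuous injection into the Cantor set, which does not belong to the
class `SC_p(M_0^{<ω})`.  All definitions of the statement are in `Pool.Agent.LibSC37.Defs`
(`SepCont`, `SCp`, `InClass`, `IsNetwork`, `IsLocFin`, `IsSigmaSpace`).

The space: nodes are triples `(n, u, S)` with `u` a word of length `n` and `S` a set of words of
length `n`; a branch is a point `t` of the Cantor set together with a pointwise convergent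
sequence `S n` of clopen sets, it is the limit of the nodes `(n, t|n, S n)`; the space consists
of countably many copies of the nodes and branches and one point at infinity, whose
neighbourhoods are given by the copies and by the sets `{limit of the S n contains r}`.  The
branches are chosen by a transfinite recursion over all countable families of functions on the
nodes, with the help of a category argument in the Cantor set.
-/

open Set Filter Topology Cardinal TopologicalSpace

namespace Pool.Agent.Results.MP_713d40_gt.CountableIWeight

open Pool.Agent.LibSC37

universe u

theorem result : ∃ (X : Type) (_ : TopologicalSpace X),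
    T35Space X ∧ IsSigmaSpace X ∧
    (∃ B : Set (Set X), IsTopologicalBasis B ∧ (∀ U ∈ B, IsClopen U) ∧ #B ≤ 𝔠) ∧
    (∃ f : X → (ℕ → Bool), Continuous f ∧ Function.Injective f) ∧ ¬ InClass.{u} X :=
  main

end Pool.Agent.Results.MP_713d40_gt.CountableIWeight
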