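import Mathlib

/-!
# MP_713d40_gt: a sigma-space of weight at most continuum outside the class SC_p(M_0^{<omega})

We show that the Mrowka-Isbell space of an infinite maximal almost disjoint family of subsets
of the natural numbers is a Tychonoff sigma-space of weight at most continuum which admits no
continuous injection into the space of separately continuous functions on the finite powers of
a separable space.
-/

open Set Filter Topology Cardinal TopologicalSpace

namespace Pool.Agent.Results.MP_713d40_gt.NotAllSigmaSpaces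

universe u

/-- A function on the finite power `M^n` is separately continuous. -/
def SepCont {M : Type u} [TopologicalSpace M] {n : ℕ} (f : (Fin n → M) → ℝ) : Prop :=
  ∀ (x : Fin n → M) (i : Fin n), Continuous fun t : M => f (Function.update x i t)

/-- The set underlying `SC_p(M^{<ω})`: all real functions on the disjoint sum of the finite
powers of `M` whose restriction to each power is separately continuous. -/
def SCp (M : Type u) [TopologicalSpace M] : Type u :=
  {f : (Σ n : ℕ, (Fin n → M)) → ℝ // ∀ n : ℕ, SepCont fun x : Fin n → M => f ⟨n, x⟩}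

/-- The topology of pointwise convergence on `SC_p(M^{<ω})`. -/
instance (M : Type u) [TopologicalSpace M] : TopologicalSpace (SCp M) :=
  inferInstanceAs (TopologicalSpace
    {f : (Σ n : ℕ, (Fin n → M)) → ℝ // ∀ n : ℕ, SepCont fun x : Fin n → M => f ⟨n, x⟩})

/-- Membership in the class `SC_p(M_0^{<ω})`: the space embeds into `SC_p(M^{<ω})` for some
separable metrizable `M`. -/
def InClass (X : Type) [TopologicalSpace X] : Prop :=
  ∃ (M : Type u) (_ : TopologicalSpace M), MetrizableSpace M ∧ SeparableSpace M ∧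
    ∃ e : X → SCp M, IsEmbedding e

/-- A family of sets is a network. -/
def IsNetwork {X : Type*} [TopologicalSpace X] (N : Set (Set X)) : Prop :=
  ∀ (x : X) (U : Set X), IsOpen U → x ∈ U → ∃ A ∈ N, x ∈ A ∧ A ⊆ U

/-- A family of sets is locally finite. -/
def IsLocFin {X : Type*} [TopologicalSpace X] (N : Set (Set X)) : Prop :=
  ∀ x : X, ∃ U ∈ 𝓝 x, {A ∈ N | (A ∩ U).Nonempty}.Finite

/-- A sigma-space: a regular `T_1` space with a sigma-locally finite network. -/
def IsSigmaSpace (X : Type*) [TopologicalSpace X] : Prop :=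
  RegularSpace X ∧ T1Space X ∧
    ∃ N : ℕ → Set (Set X), (∀ k, IsLocFin (N k)) ∧ IsNetwork (⋃ k, N k)

/-! ### Continuous injections out of separable function spaces -/

/-- A separately continuous function is determined by its values on the power of a dense set. -/
lemma sep_eq {M : Type u} [TopologicalSpace M] {D : Set M} (hD : Dense D) {n : ℕ}
    {f g : (Fin n → M) → ℝ} (hf : SepCont f) (hg : SepCont g)
    (h : ∀ x : Fin n → M, (∀ i, x i ∈ D) → f x = g x) : f = g := by
  -- induct on the number of coordinates allowed to be arbitrary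
  have key : ∀ k : ℕ, k ≤ n → ∀ x : Fin n → M, (∀ i : Fin n, k ≤ i.val → x i ∈ D) →
      f x = g x := by
    intro k
    induction k with
    | zero => intro _ x hx; exact h x fun i => hx i (Nat.zero_le _)
    | succ k ih =>
      intro hk x hx
      have hkn : k < n := hk
      let i₀ : Fin n := ⟨k, hkn⟩
      have hcont1 := hf x i₀
      have hcont2 := hg x i₀
      have heq : (fun t : M => f (Function.update x i₀ t)) =
          fun t : M => g (Function.update x i₀ t) := by
        refine Continuous.ext_on hD hcont1 hcont2 ?_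
        intro t ht
        refine ih hkn.le _ ?_
        intro i hi
        by_cases hii : i = i₀
        · subst hii; simpa using ht
        · rw [Function.update_of_ne hii]
          refine hx i ?_
          have : i.val ≠ k := fun hc => hii (Fin.ext hc)
          omega
      have := congrFun heq (x i₀)
      simpa using this
  funext x
  exact key n le_rfl x fun i hi => absurd i.isLt (by omega)

/-- If `X` admits a continuous injection into `SC_p(M^{<ω})` with `M` separable, then countably
many continuous real functions separate the points of `X`. -/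
lemma countable_separating {X : Type} [TopologicalSpace X] {M : Type u} [TopologicalSpace M]
    [SeparableSpace M] (e : X → SCp M) (he : Continuous e) (hi : Function.Injective e) :
    ∃ h : ℕ → X → ℝ, (∀ j, Continuous (h j)) ∧ ∀ x y : X, (∀ j, h j x = h j y) → x = y := by
  obtain ⟨D, hDc, hD⟩ := exists_countable_dense M
  have : Countable D := hDc.to_subtype
  have : Countable (Σ n : ℕ, (Fin n → D)) := inferInstance
  have : Nonempty (Σ n : ℕ, (Fin n → D)) := ⟨⟨0, Fin.elim0⟩⟩
  obtain ⟨s, hs⟩ := exists_surjective_nat (Σ n : ℕ, (Fin n → D))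
  refine ⟨fun j x => (e x).1 ⟨(s j).1, fun i => ((s j).2 i : M)⟩, ?_, ?_⟩
  · intro j
    exact (continuous_apply _).comp (continuous_subtype_val.comp he)
  · intro x y hxy
    apply hi
    apply Subtype.ext
    funext p
    obtain ⟨n, z⟩ := p
    have := sep_eq hD ((e x).2 n) ((e y).2 n) (by
      intro w hw
      obtain ⟨j, hj⟩ := hs ⟨n, fun i => ⟨w i, hw i⟩⟩
      have h1 := hxy j
      dsimp only at h1
      rw [hj] at h1
      exact h1)
    exact congrFun this z

/-! ### Maximal almost disjoint families -/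

/-- Almost disjoint families of infinite subsets of `ℕ`. -/
def IsAD (A : Set (Set ℕ)) : Prop :=
  (∀ a ∈ A, a.Infinite) ∧ ∀ a ∈ A, ∀ b ∈ A, a ≠ b → (a ∩ b).Finite

lemma exists_mad : ∃ A : Set (Set ℕ), IsAD A ∧ A.Infinite ∧
    ∀ S : Set ℕ, S.Infinite → ∃ a ∈ A, (a ∩ S).Infinite := by
  classical
  -- the rows of a pairing function
  let row : ℕ → Set ℕ := fun k => range fun j : ℕ => Nat.pair k j
  have hrow_inf : ∀ k, (row k).Infinite := by
    intro k
    apply infinite_range_of_injective
    intro i j hij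
    have := congrArg Nat.unpair hij
    simpa using this
  have hrow_disj : ∀ k l, k ≠ l → row k ∩ row l = ∅ := by
    intro k l hkl
    ext m
    simp only [row, mem_inter_iff, mem_range, mem_empty_iff_false, iff_false, not_and]
    rintro ⟨i, rfl⟩ ⟨j, hj⟩
    have := congrArg Nat.unpair hj
    simp at this
    exact hkl this.1.symm
  have hrow_inj : Function.Injective row := by
    intro k l hkl
    by_contra hne
    have h1 := hrow_disj k l hne
    rw [hkl, inter_self] at h1
    exact (hrow_inf l).nonempty.ne_empty h1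
  have h0 : IsAD (range row) := by
    refine ⟨?_, ?_⟩
    · rintro _ ⟨k, rfl⟩; exact hrow_inf k
    · rintro _ ⟨k, rfl⟩ _ ⟨l, rfl⟩ hne
      rw [hrow_disj k l (fun h => hne (by rw [h]))]
      exact finite_empty
  obtain ⟨A, hA0, hAmax⟩ := zorn_subset_nonempty {A : Set (Set ℕ) | IsAD A} (by
    intro c hc hchain hne
    refine ⟨⋃₀ c, ⟨?_, ?_⟩, fun s hs => subset_sUnion_of_mem hs⟩
    · rintro a ⟨s, hs, has⟩; exact (hc hs).1 a has
    · rintro a ⟨s, hs, has⟩ b ⟨t, ht, hbt⟩ hab
      rcases hchain.total hs ht with hst | hts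
      · exact (hc ht).2 a (hst has) b hbt hab
      · exact (hc hs).2 a has b (hts hbt) hab) (range row) h0
  refine ⟨A, hAmax.prop, (infinite_range_of_injective hrow_inj).mono hA0, ?_⟩
  intro S hS
  by_contra hcon
  push Not at hcon
  have hnew : IsAD (insert S A) := by
    refine ⟨?_, ?_⟩
    · rintro a (rfl | ha)
      · exact hS
      · exact hAmax.prop.1 a ha
    · rintro a (rfl | ha) b (rfl | hb) hab
      · exact absurd rfl hab
      · have := hcon b hb
        rw [inter_comm]; exact this
      · exact hcon a ha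
      · exact hAmax.prop.2 a ha b hb hab
  have hSA : S ∈ A := hAmax.le_of_ge hnew (subset_insert S A) (mem_insert S A)
  have hSS := hcon S hSA
  rw [inter_self] at hSS
  exact hS hSS

/-! ### The Mrowka-Isbell space -/

/-- The underlying set of the Mrowka-Isbell space: a point for each natural number and a point
for each member of `A`. -/
inductive Psi (A : Set (Set ℕ)) : Type where
  | pt (n : ℕ) : Psi A
  | lim (a : A) : Psi A

/-- The isolated point attached to a natural number. -/
abbrev pt (A : Set (Set ℕ)) (n : ℕ) : Psi A := Psi.pt n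

/-- The point attached to a member of the family. -/
abbrev lim {A : Set (Set ℕ)} (a : A) : Psi A := Psi.lim a

/-- A set is open when for each member `a` of the family whose point it contains, it also
contains all but finitely many elements of `a`. -/
instance (A : Set (Set ℕ)) : TopologicalSpace (Psi A) where
  IsOpen U := ∀ a : A, lim a ∈ U → {n ∈ a.1 | pt A n ∉ U}.Finite
  isOpen_univ := by
    intro a _
    refine (finite_empty).subset ?_
    rintro n ⟨_, hn⟩
    exact absurd (mem_univ _) hn
  isOpen_inter := by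
    intro U V hU hV a ha
    refine ((hU a ha.1).union (hV a ha.2)).subset ?_
    rintro n ⟨hn, hnUV⟩
    by_cases h : pt A n ∈ U
    · exact Or.inr ⟨hn, fun hV' => hnUV ⟨h, hV'⟩⟩
    · exact Or.inl ⟨hn, h⟩
  isOpen_sUnion := by
    intro S hS a ha
    obtain ⟨U, hUS, haU⟩ := ha
    refine (hS U hUS a haU).subset ?_
    rintro n ⟨hn, hnU⟩
    exact ⟨hn, fun h => hnU ⟨U, hUS, h⟩⟩

variable {A : Set (Set ℕ)}

lemma isOpen_psi {U : Set (Psi A)} :
    IsOpen U ↔ ∀ a : A, lim a ∈ U → {n ∈ a.1 | pt A n ∉ U}.Finite := Iff.rfl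

lemma psi_cases (x : Psi A) : (∃ n, x = pt A n) ∨ ∃ a : A, x = lim a := by
  cases x with
  | pt n => exact Or.inl ⟨n, rfl⟩
  | lim a => exact Or.inr ⟨a, rfl⟩

lemma pt_ne_lim (n : ℕ) (a : A) : pt A n ≠ lim a := by
  intro h; cases h

lemma pt_inj {n m : ℕ} (h : pt A n = pt A m) : n = m := by cases h; rfl

lemma lim_inj {a b : A} (h : lim a = lim b) : a = b := by cases h; rfl

/-- Basic neighbourhoods of the points attached to members of the family. -/
def nb (a : A) (F : Finset ℕ) : Set (Psi A) :=
  {x | x = lim a ∨ ∃ n ∈ a.1, n ∉ F ∧ x = pt A n}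

lemma pt_mem_nb {a : A} {F : Finset ℕ} {n : ℕ} : pt A n ∈ nb a F ↔ n ∈ a.1 ∧ n ∉ F := by
  constructor
  · rintro (h | ⟨m, hm, hmF, h⟩)
    · exact absurd h (pt_ne_lim n a)
    · rw [pt_inj h]; exact ⟨hm, hmF⟩
  · rintro ⟨h1, h2⟩; exact Or.inr ⟨n, h1, h2, rfl⟩

lemma lim_mem_nb {a b : A} {F : Finset ℕ} : lim b ∈ nb a F ↔ b = a := by
  constructor
  · rintro (h | ⟨m, hm, hmF, h⟩)
    · exact lim_inj h
    · exact absurd h.symm (pt_ne_lim m b)
  · rintro rfl; exact Or.inl rfl

lemma isOpen_nb (a : A) (F : Finset ℕ) : IsOpen (nb a F) := by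
  rw [isOpen_psi]
  intro b hb
  rw [lim_mem_nb] at hb
  subst hb
  refine F.finite_toSet.subset ?_
  rintro n ⟨hn, hn2⟩
  rw [pt_mem_nb] at hn2
  by_contra hF
  exact hn2 ⟨hn, hF⟩

lemma isClosed_nb (hA : IsAD A) (a : A) (F : Finset ℕ) : IsClosed (nb a F) := by
  rw [← isOpen_compl_iff, isOpen_psi]
  intro b hb
  rw [mem_compl_iff, lim_mem_nb] at hb
  refine (hA.2 b.1 b.2 a.1 a.2 (fun h => hb (Subtype.ext h))).subset ?_
  rintro n ⟨hn, hn2⟩
  rw [mem_compl_iff, not_not, pt_mem_nb] at hn2
  exact ⟨hn, hn2.1⟩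

lemma isOpen_pt (n : ℕ) : IsOpen ({pt A n} : Set (Psi A)) := by
  rw [isOpen_psi]
  intro b hb
  exact absurd hb.symm (pt_ne_lim n b)

lemma isClosed_pt (n : ℕ) : IsClosed ({pt A n} : Set (Psi A)) := by
  rw [← isOpen_compl_iff, isOpen_psi]
  intro b _
  refine (finite_singleton n).subset ?_
  rintro m ⟨_, hm⟩
  rw [mem_compl_iff, not_not] at hm
  exact pt_inj hm

/-- The base consisting of isolated points and basic neighbourhoods. -/
def base (A : Set (Set ℕ)) : Set (Set (Psi A)) :=
  (range fun n : ℕ => ({pt A n} : Set (Psi A))) ∪ range fun p : A × Finset ℕ => nb p.1 p.2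

lemma isBasis_base : IsTopologicalBasis (base A) := by
  refine isTopologicalBasis_of_isOpen_of_nhds ?_ ?_
  · rintro U (⟨n, rfl⟩ | ⟨p, rfl⟩)
    · exact isOpen_pt n
    · exact isOpen_nb _ _
  · intro x U hx hU
    rcases psi_cases x with ⟨n, rfl⟩ | ⟨a, rfl⟩
    · exact ⟨{pt A n}, Or.inl ⟨n, rfl⟩, rfl, singleton_subset_iff.mpr hx⟩
    · have hfin := isOpen_psi.mp hU a hx
      refine ⟨nb a hfin.toFinset, Or.inr ⟨(a, hfin.toFinset), rfl⟩, Or.inl rfl, ?_⟩
      rintro y (rfl | ⟨n, hn, hnF, rfl⟩)
      · exact hx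
      · by_contra hcon
        exact hnF (by simpa using ⟨hn, hcon⟩)

lemma base_clopen (hA : IsAD A) : base A ⊆ {s : Set (Psi A) | IsClopen s} := by
  rintro U (⟨n, rfl⟩ | ⟨p, rfl⟩)
  · exact ⟨isClosed_pt n, isOpen_pt n⟩
  · exact ⟨isClosed_nb hA _ _, isOpen_nb _ _⟩

lemma basis_clopens (hA : IsAD A) : IsTopologicalBasis {s : Set (Psi A) | IsClopen s} := by
  refine isBasis_base.of_isOpen_of_subset ?_ (base_clopen hA)
  intro s hs; exact hs.2

lemma mk_base_le : #(base A) ≤ 𝔠 := by
  have hA : #A ≤ 𝔠 := (mk_set_le A).trans (by simp)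
  refine (mk_union_le _ _).trans ?_
  refine add_le_of_le aleph0_le_continuum ?_ ?_
  · exact (mk_range_le).trans (by simpa using aleph0_le_continuum)
  · refine (mk_range_le).trans ?_
    rw [mk_prod, lift_id, lift_id]
    refine mul_le_of_le aleph0_le_continuum hA ?_
    exact (mk_le_aleph0).trans aleph0_le_continuum

lemma t35_psi (hA : IsAD A) : T35Space (Psi A) := by
  have : CompletelyRegularSpace (Psi A) :=
    CompletelyRegularSpace.of_isTopologicalBasis_clopens (basis_clopens hA)
  have : T1Space (Psi A) := by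
    refine ⟨fun x => ?_⟩
    rcases psi_cases x with ⟨n, rfl⟩ | ⟨a, rfl⟩
    · exact isClosed_pt n
    · rw [← isOpen_compl_iff, isOpen_psi]
      intro b _
      refine (finite_empty).subset ?_
      rintro m ⟨_, hm⟩
      rw [mem_compl_iff, not_not] at hm
      exact absurd hm (pt_ne_lim m a)
  exact {}

lemma sigma_psi (hA : IsAD A) : IsSigmaSpace (Psi A) := by
  have := t35_psi hA
  refine ⟨inferInstance, inferInstance, ?_⟩
  refine ⟨fun k => match k with
    | 0 => range fun a : A => ({lim a} : Set (Psi A))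
    | k + 1 => {({pt A k} : Set (Psi A))}, ?_, ?_⟩
  · intro k
    rcases k with _ | k
    · intro x
      rcases psi_cases x with ⟨n, rfl⟩ | ⟨a, rfl⟩
      · refine ⟨{pt A n}, (isOpen_pt n).mem_nhds rfl, ?_⟩
        refine (finite_empty).subset ?_
        rintro S ⟨⟨a, rfl⟩, y, hy1, hy2⟩
        have h1 : y = lim a := hy1
        have h2 : y = pt A n := hy2
        exact absurd (h2.symm.trans h1) (pt_ne_lim n a)
      · refine ⟨nb a ∅, (isOpen_nb a ∅).mem_nhds (Or.inl rfl), ?_⟩
        refine (finite_singleton ({lim a} : Set (Psi A))).subset ?_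
        rintro S ⟨⟨b, rfl⟩, y, hy1, hy2⟩
        have h1 : y = lim b := hy1
        subst h1
        rw [lim_mem_nb] at hy2
        subst hy2
        rfl
    · intro x
      refine ⟨univ, univ_mem, ?_⟩
      exact (finite_singleton _).subset fun S hS => hS.1
  · intro x U _ hx
    rcases psi_cases x with ⟨n, rfl⟩ | ⟨a, rfl⟩
    · refine ⟨{pt A n}, mem_iUnion.mpr ⟨n + 1, rfl⟩, rfl, singleton_subset_iff.mpr hx⟩
    · refine ⟨{lim a}, mem_iUnion.mpr ⟨0, ⟨a, rfl⟩⟩, rfl, singleton_subset_iff.mpr hx⟩

/-- A continuous function along a member of the family converges to its value at the limit. -/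
lemma tendsto_lim {h : Psi A → ℝ} (hh : Continuous h) (a : A) :
    Tendsto (fun n => h (pt A n)) (cofinite ⊓ 𝓟 a.1) (𝓝 (h (lim a))) := by
  intro V hV
  rw [mem_map, mem_inf_principal, mem_cofinite]
  obtain ⟨W, hWV, hW, hxW⟩ := mem_nhds_iff.mp hV
  have h1 : IsOpen (h ⁻¹' W) := hW.preimage hh
  refine (isOpen_psi.mp h1 a hxW).subset ?_
  intro n hn
  simp only [mem_compl_iff, mem_setOf_eq, Classical.not_imp] at hn
  exact ⟨hn.1, fun h2 => hn.2 (hWV h2)⟩

/-- Selecting elements close to prescribed limit points. -/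
lemma select {h : ℕ → Psi A → ℝ} (hh : ∀ j, Continuous (h j)) (a : ℕ → A)
    (B : ℕ → Set ℕ) (hB : ∀ k, ((a k).1 \ B k).Infinite) :
    ∃ m : ℕ → ℕ, StrictMono m ∧ ∀ k, m k ∈ (a k).1 \ B k ∧
      ∀ j ≤ k, |h j (pt A (m k)) - h j (lim (a k))| < 1 / ((k : ℝ) + 1) := by
  have := extraction_forall_of_frequently
    (P := fun k m => m ∈ (a k).1 \ B k ∧
      ∀ j ≤ k, |h j (pt A m) - h j (lim (a k))| < 1 / ((k : ℝ) + 1)) (by
    intro k
    have hpos : (0 : ℝ) < 1 / ((k : ℝ) + 1) := by positivity
    have hev : ∀ᶠ m in cofinite ⊓ 𝓟 (a k).1,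
        ∀ j ≤ k, |h j (pt A m) - h j (lim (a k))| < 1 / ((k : ℝ) + 1) := by
      have : ∀ j ∈ Finset.range (k + 1), ∀ᶠ m in cofinite ⊓ 𝓟 (a k).1,
          |h j (pt A m) - h j (lim (a k))| < 1 / ((k : ℝ) + 1) := by
        intro j _
        have := (Metric.tendsto_nhds.mp (tendsto_lim (hh j) (a k))) _ hpos
        simpa [Real.dist_eq] using this
      have h2 := (Finset.eventually_all (Finset.range (k + 1))).mpr this
      filter_upwards [h2] with m hm j hj
      exact hm j (Finset.mem_range.mpr (by omega))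
    rw [eventually_inf_principal, eventually_cofinite] at hev
    rw [Nat.frequently_atTop_iff_infinite]
    refine ((hB k).diff hev).mono ?_
    rintro m ⟨hm1, hm2⟩
    refine ⟨hm1, ?_⟩
    by_contra hcon
    exact hm2 (fun hc => hcon (hc hm1.1)))
  obtain ⟨φ, hφ, hφ2⟩ := this
  exact ⟨φ, hφ, hφ2⟩

/-- If a strictly monotone selection meets a member `b` of the family infinitely often, then the
values at the limit points converge to the value at `b` along the corresponding indices. -/
lemma tendsto_of_meet {h : ℕ → Psi A → ℝ} (hh : ∀ j, Continuous (h j)) (a : ℕ → A)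
    (m : ℕ → ℕ) (hm : StrictMono m)
    (hclose : ∀ k, ∀ j ≤ k, |h j (pt A (m k)) - h j (lim (a k))| < 1 / ((k : ℝ) + 1))
    (b : A) (ψ : ℕ → ℕ) (hψ : StrictMono ψ) (hmem : ∀ k, m (ψ k) ∈ b.1) (j : ℕ) :
    Tendsto (fun k => h j (lim (a (ψ k)))) atTop (𝓝 (h j (lim b))) := by
  have h1 : Tendsto (fun k => h j (pt A (m (ψ k)))) atTop (𝓝 (h j (lim b))) := by
    refine (tendsto_lim (hh j) b).comp ?_
    refine tendsto_inf.mpr ⟨?_, ?_⟩
    · rw [← Nat.cofinite_eq_atTop]
      exact (hm.comp hψ).injective.tendsto_cofinite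
    · exact tendsto_principal.mpr (Eventually.of_forall hmem)
  have h2 : Tendsto (fun k => h j (pt A (m (ψ k))) - h j (lim (a (ψ k)))) atTop (𝓝 0) := by
    rw [tendsto_zero_iff_abs_tendsto_zero]
    have h3 : Tendsto (fun k : ℕ => 1 / (((ψ k : ℕ) : ℝ) + 1)) atTop (𝓝 0) :=
      tendsto_one_div_add_atTop_nhds_zero_nat.comp hψ.tendsto_atTop
    refine squeeze_zero' (Eventually.of_forall fun k => abs_nonneg _) ?_ h3
    filter_upwards [eventually_ge_atTop j] with k hk
    exact (hclose (ψ k) j (hk.trans (hψ.id_le k))).le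
  have h4 := h1.sub h2
  simpa using h4

/-- No countable family of continuous functions separates the points of the Mrowka-Isbell space
of an infinite maximal almost disjoint family. -/
lemma not_separated (hA : IsAD A) (hinf : A.Infinite)
    (hmax : ∀ S : Set ℕ, S.Infinite → ∃ a ∈ A, (a ∩ S).Infinite)
    (h : ℕ → Psi A → ℝ) (hh : ∀ j, Continuous (h j)) :
    ∃ x y : Psi A, x ≠ y ∧ ∀ j, h j x = h j y := by
  have : Infinite A := hinf.to_subtype
  let a : ℕ → A := Infinite.natEmbedding A
  have ha : Function.Injective a := (Infinite.natEmbedding A).injective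
  obtain ⟨m, hm, hm2⟩ := select hh a (fun _ => ∅) (by
    intro k; rw [diff_empty]; exact hA.1 _ (a k).2)
  obtain ⟨b, hb, hbm⟩ := hmax (range m) (infinite_range_of_injective hm.injective)
  -- indices at which the selection lies in `b` and the limit point is not `b`
  let K : Set ℕ := {k | m k ∈ b ∧ (a k).1 ≠ b}
  have hK : K.Infinite := by
    have h1 : {k | m k ∈ b}.Infinite := by
      intro hfin
      apply hbm
      refine (hfin.image m).subset ?_
      rintro _ ⟨hx, k, rfl⟩
      exact ⟨k, hx, rfl⟩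
    have h2 : {k | (a k).1 = b}.Finite := by
      apply Set.Subsingleton.finite
      intro k hk l hl
      exact ha (Subtype.ext (hk.trans hl.symm))
    refine (h1.diff h2).mono ?_
    rintro k ⟨hk1, hk2⟩
    exact ⟨hk1, hk2⟩
  obtain ⟨ψ, hψ, hψK⟩ : ∃ ψ : ℕ → ℕ, StrictMono ψ ∧ ∀ k, ψ k ∈ K := by
    have := Nat.frequently_atTop_iff_infinite.mpr hK
    obtain ⟨ψ, h1, h2⟩ := extraction_of_frequently_atTop this
    exact ⟨ψ, h1, h2⟩
  have hlim1 : ∀ j, Tendsto (fun k => h j (lim (a (ψ k)))) atTop (𝓝 (h j (lim ⟨b, hb⟩))) :=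
    fun j => tendsto_of_meet hh a m hm (fun k j hj => (hm2 k).2 j hj) ⟨b, hb⟩ ψ hψ
      (fun k => (hψK k).1) j
  obtain ⟨m', hm', hm2'⟩ := select hh (fun k => a (ψ k)) (fun _ => b) (by
    intro k
    refine (hA.1 _ (a (ψ k)).2).diff (hA.2 _ (a (ψ k)).2 b hb (hψK k).2) |>.mono ?_
    rintro x ⟨hx1, hx2⟩
    exact ⟨hx1, fun hxb => hx2 ⟨hx1, hxb⟩⟩)
  obtain ⟨c, hc, hcm⟩ := hmax (range m') (infinite_range_of_injective hm'.injective)
  have hcb : c ≠ b := by
    rintro rfl
    apply hcm
    refine (finite_empty).subset ?_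
    rintro _ ⟨hx, k, rfl⟩
    exact (hm2' k).1.2 hx
  have hL : {k | m' k ∈ c}.Infinite := by
    intro hfin
    apply hcm
    refine (hfin.image m').subset ?_
    rintro _ ⟨hx, k, rfl⟩
    exact ⟨k, hx, rfl⟩
  obtain ⟨χ, hχ, hχL⟩ : ∃ χ : ℕ → ℕ, StrictMono χ ∧ ∀ k, m' (χ k) ∈ c := by
    have := Nat.frequently_atTop_iff_infinite.mpr hL
    obtain ⟨χ, h1, h2⟩ := extraction_of_frequently_atTop this
    exact ⟨χ, h1, h2⟩
  refine ⟨lim ⟨b, hb⟩, lim ⟨c, hc⟩, ?_, ?_⟩
  · intro heq
    exact hcb (congrArg Subtype.val (lim_inj heq)).symm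
  · intro j
    have h1 := tendsto_of_meet hh (fun k => a (ψ k)) m' hm' (fun k j hj => (hm2' k).2 j hj)
      ⟨c, hc⟩ χ hχ hχL j
    have h2 := (hlim1 j).comp hχ.tendsto_atTop
    exact tendsto_nhds_unique h2 h1

/-- There is a Tychonoff sigma-space with a base of cardinality at
most the continuum which does not belong to the class `SC_p(M_0^{<ω})`; in fact it has no
continuous injection into `SC_p(M^{<ω})` for any separable space `M`. -/
theorem result : ∃ (X : Type) (_ : TopologicalSpace X),
    T35Space X ∧ IsSigmaSpace X ∧ (∃ B : Set (Set X), IsTopologicalBasis B ∧ #B ≤ 𝔠) ∧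
    ¬ InClass.{u} X ∧
    ∀ (M : Type u) (_ : TopologicalSpace M), SeparableSpace M →
      ¬ ∃ e : X → SCp M, Continuous e ∧ Function.Injective e := by
  obtain ⟨A, hA, hinf, hmax⟩ := exists_mad
  have key : ∀ (M : Type u) (_ : TopologicalSpace M), SeparableSpace M →
      ¬ ∃ e : Psi A → SCp M, Continuous e ∧ Function.Injective e := by
    rintro M _ hsep ⟨e, he, hinj⟩
    obtain ⟨h, hh, hsepar⟩ := countable_separating e he hinj
    obtain ⟨x, y, hxy, heq⟩ := not_separated hA hinf hmax h hh
    exact hxy (hsepar x y heq)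
  refine ⟨Psi A, inferInstance, t35_psi hA, sigma_psi hA, ⟨base A, isBasis_base, mk_base_le⟩,
    ?_, key⟩
  rintro ⟨M, tM, _, hsep, e, he⟩
  exact key M tM hsep ⟨e, he.continuous, he.injective⟩

end Pool.Agent.Results.MP_713d40_gt.NotAllSigmaSpaces
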